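import Mathlib

set_option autoImplicit false

namespace Pool.Agent.H.MP_582e6d_pr

variable {A B C D : ℝ}

def L (A B C D : ℝ) (g : ℤ → ℤ → ℤ → ℝ) (i p q : ℤ) : ℝ :=
  g i p q - A * g i (p - 2) q - B * g i p (q - 2) - D * g (i - 2) p q - C * g (i - 1) (p - 1) (q - 1)

lemma pos (hA : 0 ≤ A) (hB : 0 ≤ B) (hC : 0 ≤ C) (hD : 0 ≤ D) {g : ℤ → ℤ → ℤ → ℝ}
    (h0 : ∀ i p q, i < 0 ∨ p < 0 ∨ q < 0 → g i p q = 0) (h : ∀ i p q, 0 ≤ L A B C D g i p q) (i p q : ℤ) :
    0 ≤ g i p q := by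
  induction hn : (i + p + q + 1).toNat using Nat.strong_induction_on generalizing i p q with
  | _ n ih =>
    by_cases e : i < 0 ∨ p < 0 ∨ q < 0
    · rw [h0 i p q e]
    have := h i p q
    have h1 := mul_nonneg hA (ih _ (by omega) i (p - 2) q rfl)
    have h2 := mul_nonneg hB (ih _ (by omega) i p (q - 2) rfl)
    have h3 := mul_nonneg hD (ih _ (by omega) (i - 2) p q rfl)
    have h4 := mul_nonneg hC (ih _ (by omega) (i - 1) (p - 1) (q - 1) rfl)
    unfold L at this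
    linarith

lemma uniq (hA : 0 ≤ A) (hB : 0 ≤ B) (hC : 0 ≤ C) (hD : 0 ≤ D) {g : ℤ → ℤ → ℤ → ℝ}
    (h0 : ∀ i p q, i < 0 ∨ p < 0 ∨ q < 0 → g i p q = 0) (h : ∀ i p q, L A B C D g i p q = 0) (i p q : ℤ) :
    g i p q = 0 := by
  have h1 := pos hA hB hC hD h0 (fun i p q => (h i p q).ge) i p q
  have h2 := pos hA hB hC hD (g := fun i p q => -g i p q) (fun i p q e => by simp [h0 i p q e])
    (fun i p q => by have := h i p q; unfold L at *; linarith) i p q
  linarith

noncomputable def H (A B C D : ℝ) (i p q : ℤ) : ℝ :=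
  if _h : i < 0 ∨ p < 0 ∨ q < 0 then 0 else (if i = 0 then 1 else 0) + A * H A B C D i (p - 2) q +
    B * H A B C D i p (q - 2) + D * H A B C D (i - 2) p q + C * H A B C D (i - 1) (p - 1) (q - 1)
termination_by (i + p + q + 1).toNat
decreasing_by all_goals omega

def e (i p q : ℤ) : ℝ := if i = 0 ∧ 0 ≤ p ∧ 0 ≤ q then 1 else 0

lemma H0 (i p q : ℤ) (h : i < 0 ∨ p < 0 ∨ q < 0) : H A B C D i p q = 0 := by rw [H, dif_pos h]

lemma HL (i p q : ℤ) : L A B C D (H A B C D) i p q = e i p q := by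
  unfold L e
  by_cases h : i < 0 ∨ p < 0 ∨ q < 0
  · rw [H0 i p q h, H0 _ _ _ (by omega), H0 _ _ _ (by omega), H0 _ _ _ (by omega), H0 _ _ _ (by omega), if_neg (by omega)]
    ring
  · rw [H, dif_neg h, if_congr (show (i = 0 ∧ 0 ≤ p ∧ 0 ≤ q) ↔ i = 0 by omega) rfl rfl]; ring

lemma Hs (i p q s t : ℤ) : L A B C D (fun i p q => H A B C D i (p - s) (q - t)) i p q = e i (p - s) (q - t) := by
  rw [← HL (A := A) (B := B) (C := C) (D := D)]
  simp only [L, sub_right_comm _ _ s, sub_right_comm _ _ t]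

theorem key (hA : 0 < A) (hAB : A ≤ B) (hC : 0 ≤ C) (hD : 0 ≤ D) (n : ℤ) : ∃ h U V Z : ℝ, 0 ≤ U ∧ 0 ≤ V ∧ 0 ≤ Z ∧
    B * V ≤ A * U ∧ H A B C D n (n - 2) (n - 2) = h ∧ H A B C D n (n - 1) (n - 1) = h ∧ H A B C D n (n - 2) n = h + U ∧
    H A B C D n n (n - 2) = h + V ∧ H A B C D n n n = h + U + V + Z := by
  have hB := hA.le.trans hAB
  obtain ⟨G, hG⟩ : ∃ G, G = H A B C D := ⟨_, rfl⟩
  have z : ∀ i p q, i < 0 ∨ p < 0 ∨ q < 0 → G i p q = 0 := hG ▸ H0
  have s : ∀ i p q s t, L A B C D (fun i p q => G i (p - s) (q - t)) i p q = e i (p - s) (q - t) := hG ▸ Hs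
  have p1 : ∀ i p q, (if (p - i) % 2 = 1 then G i p q - G i (p - 1) q else 0) = 0 :=
    uniq hA.le hB hC hD (fun i p q h => by rw [z _ _ _ h, z _ _ _ (by omega)]; simp) fun i p q => by
      have a := s i p q 0 0
      have b := s i p q 1 0
      simp only [L, e, sub_zero] at a b ⊢
      split_ifs at a b ⊢ <;> first | omega | linarith
  have p2 : ∀ i p q, (if (q - i) % 2 = 1 then G i p q - G i p (q - 1) else 0) = 0 :=
    uniq hA.le hB hC hD (fun i p q h => by rw [z _ _ _ h, z _ _ _ (by omega)]; simp) fun i p q => by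
      have a := s i p q 0 0
      have b := s i p q 0 1
      simp only [L, e, sub_zero] at a b ⊢
      split_ifs at a b ⊢ <;> first | omega | linarith
  have q1 : ∀ q, G n (n - 1) q = G n (n - 2) q := fun q => by
    have := p1 n (n - 1) q
    rwa [if_pos (by omega), sub_eq_zero, show n - 1 - 1 = n - 2 by ring] at this
  have q2 : ∀ p, G n p (n - 1) = G n p (n - 2) := fun p => by
    have := p2 n p (n - 1)
    rwa [if_pos (by omega), sub_eq_zero, show n - 1 - 1 = n - 2 by ring] at this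
  obtain ⟨h, hh⟩ : ∃ h : ℤ → ℤ → ℤ → ℝ,
    h = fun i p q => G i p q - G i (p - 1) q - G i p (q - 1) + G i (p - 1) (q - 1) := ⟨_, rfl⟩
  have h0 : ∀ i p q, i < 0 ∨ p < 0 ∨ q < 0 → h i p q = 0 := fun i p q e => by
    simp only [hh]; rw [z _ _ _ e, z _ _ _ (by omega), z _ _ _ (by omega), z _ _ _ (by omega)]; ring
  have hL : ∀ i p q, L A B C D h i p q = if i = 0 ∧ p = 0 ∧ q = 0 then 1 else 0 := fun i p q => by
    have a := s i p q 0 0
    have b := s i p q 1 0
    have c := s i p q 0 1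
    have d := s i p q 1 1
    simp only [L, e, sub_zero, hh] at a b c d ⊢
    split_ifs at a b c d ⊢ <;> first | omega | linarith
  have hp := pos hA.le hB hC hD h0 fun i p q => by rw [hL]; split_ifs <;> norm_num
  obtain ⟨t, t1, ht⟩ : ∃ t : ℝ, 1 ≤ t ∧ A * t ^ 2 = B := ⟨√(B / A), Real.le_sqrt_of_sq_le (by
    rw [one_pow, one_le_div hA]; exact hAB), by rw [Real.sq_sqrt (by positivity)]; field_simp⟩
  have t0 : t ≠ 0 := by positivity
  have sy : ∀ i p q, h i p q - t ^ (q - p) * h i q p = 0 :=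
    uniq hA.le hB hC hD (fun i p q e => by rw [h0 _ _ _ e, h0 _ _ _ (by omega)]; ring) fun i p q => by
      have a := hL i p q
      have b := hL i q p
      have c : t ^ (q - p) * (if i = 0 ∧ q = 0 ∧ p = 0 then 1 else 0) = if i = 0 ∧ p = 0 ∧ q = 0 then 1 else 0 := by
        split_ifs with h1 h2 h2 <;> first | omega | simp [*]
      have d : t ^ (q - (p - 2)) = t ^ (q - p) * t ^ 2 := by rw [← zpow_natCast, ← zpow_add₀ t0]; congr 1; ring
      have f : t ^ (q - p) = t ^ (q - 2 - p) * t ^ 2 := by rw [← zpow_natCast, ← zpow_add₀ t0]; congr 1; ring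
      simp only [L] at a b ⊢
      rw [d, show q - 1 - (p - 1) = q - p by ring]
      rw [← b] at c
      linear_combination a - c + (t ^ (q - p) * h i q (p - 2)) * ht - (A * h i (q - 2) p) * f -
        (t ^ (q - 2 - p) * h i (q - 2) p) * ht
  have ind : ∀ k : ℕ, ∀ p : ℤ, p + 1 = k → p ≤ n - 2 → 0 ≤ G n n p - G n (n - 1) p ∧
      t ^ 2 * (G n n p - G n (n - 1) p) ≤ G n p n - G n p (n - 1) := by
    intro k
    induction k with
    | zero => intro p e _; rw [z _ _ p (by omega), z _ _ p (by omega), z _ p _ (by omega), z _ p _ (by omega)]; simp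
    | succ k ih =>
      intro p e hp'
      obtain ⟨a, b⟩ := ih (p - 1) (by omega) (by omega)
      have c := sy n p n
      have d := hp n n p
      have f : t ^ 2 * h n n p ≤ t ^ (n - p) * h n n p := mul_le_mul_of_nonneg_right (by
        rw [← zpow_natCast]; exact zpow_le_zpow_right₀ t1 (by omega)) d
      simp only [hh] at c d f
      constructor <;> linarith
  have fin : 0 ≤ G n n (n - 2) - G n (n - 1) (n - 2) ∧
      t ^ 2 * (G n n (n - 2) - G n (n - 1) (n - 2)) ≤ G n (n - 2) n - G n (n - 2) (n - 1) := by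
    rcases lt_or_ge (n - 2) 0 with e | e
    · rw [z _ _ (n - 2) (by omega), z _ _ (n - 2) (by omega), z _ (n - 2) _ (by omega), z _ (n - 2) _ (by omega)]; simp
    · exact ind (n - 1).toNat _ (by omega) le_rfl
  have Z := hp n n n
  simp only [hh, q1, q2] at Z fin
  rw [← hG]
  refine ⟨G n (n - 2) (n - 2), G n (n - 2) n - G n (n - 2) (n - 2), G n n (n - 2) - G n (n - 2) (n - 2), _, ?_, fin.1, Z, ?_,
    rfl, by rw [q1, q2], by ring, by ring, by ring⟩
  · exact le_trans (mul_nonneg (sq_nonneg t) fin.1) fin.2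
  · rw [← ht, mul_assoc]; exact mul_le_mul_of_nonneg_left fin.2 hA.le

theorem main {a b c : ℝ} (b0 : 0 < b) (ba : b ≤ a) (a1 : a < 1) (c0 : 0 < c) (c1 : c ≤ 1 / 2) {S M F : ℤ → ℤ → ℤ → ℝ}
    (s0 : ∀ i p q, i < 0 ∨ p < 0 ∨ q < 0 → S i p q = 0) (m0 : ∀ i p q, i < 0 ∨ p < 0 ∨ q < 0 → M i p q = 0)
    (hS : ∀ i p q, S i p q = a * (e i p q + M (i - 1) p q) + (1 - a) * F i (p - 1) q)
    (hM : ∀ i p q, M i p q = b * (e i p q + S (i - 1) p q) + (1 - b) * F i p (q - 1))
    (hF : ∀ i p q, F i p q = c * S i (p - 1) q + (1 - c) * M i p (q - 1)) (n : ℤ) : M n n n ≤ S n n n := by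
  have hA : 0 < (1 - a) * c := mul_pos (by linarith) c0
  have hAB : (1 - a) * c ≤ (1 - b) * (1 - c) := mul_le_mul (by linarith) (by linarith) c0.le (by linarith)
  have hC : 0 ≤ a * (1 - b) * c + b * (1 - a) * (1 - c) := by
    have : 0 ≤ 1 - a := by linarith
    have : 0 ≤ 1 - b := by linarith
    have : 0 ≤ 1 - c := by linarith
    have : 0 ≤ a := by linarith
    positivity
  have hD : 0 ≤ a * b := mul_nonneg (by linarith) b0.le
  obtain ⟨h, U, V, Z, u0, v0, z0, uv, k1, k2, k3, k4, k5⟩ := key hA hAB hC hD n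
  have z := @H0 ((1 - a) * c) ((1 - b) * (1 - c)) (a * (1 - b) * c + b * (1 - a) * (1 - c)) (a * b)
  have s := @Hs ((1 - a) * c) ((1 - b) * (1 - c)) (a * (1 - b) * c + b * (1 - a) * (1 - c)) (a * b)
  generalize H ((1 - a) * c) ((1 - b) * (1 - c)) (a * (1 - b) * c + b * (1 - a) * (1 - c)) (a * b) = G at *
  have S2 : ∀ i p q, S i p q = a * (e i p q + M (i - 1) p q) + (1 - a) * (c * S i (p - 2) q +
      (1 - c) * M i (p - 1) (q - 1)) := fun i p q => by rw [hS, hF, show p - 1 - 1 = p - 2 by ring]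
  have M2 : ∀ i p q, M i p q = b * (e i p q + S (i - 1) p q) + (1 - b) * (c * S i (p - 1) (q - 1) +
      (1 - c) * M i p (q - 2)) := fun i p q => by rw [hM, hF, show q - 1 - 1 = q - 2 by ring]
  have := uniq hA.le (hA.le.trans hAB) hC hD (g := fun i p q => S i p q - M i p q - ((a - b) * G i p q +
    b * (1 - a) * c * G i (p - 2) q - a * (1 - b) * (1 - c) * G i p (q - 2) +
    (b * (1 - a) * (1 - c) - a * (1 - b) * c) * G i (p - 1) (q - 1)))
    (fun i p q h => by
      rw [s0 _ _ _ h, m0 _ _ _ h, z _ _ _ h, z _ _ _ (by omega), z _ _ _ (by omega), z _ _ _ (by omega)]; ring)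
    (fun i p q => by
      have a1 := s i p q 0 0
      have a2 := s i p q 2 0
      have a3 := s i p q 0 2
      have a4 := s i p q 1 1
      have b1 := S2 i p q
      have b2 := S2 i p (q - 2)
      have b3 := S2 (i - 1) p q
      have b4 := S2 i (p - 1) (q - 1)
      have c1 := M2 i p q
      have c2 := M2 i (p - 2) q
      have c3 := M2 (i - 1) p q
      have c4 := M2 i (p - 1) (q - 1)
      simp only [L, sub_zero, sub_sub, Int.reduceAdd] at a1 a2 a3 a4 b1 b2 b3 b4 c1 c2 c3 c4 ⊢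
      linear_combination b1 - (1 - b) * (1 - c) * b2 - b * b3 - (1 - b) * c * b4 - c1 + (1 - a) * c * c2 + a * c3 +
        (1 - a) * (1 - c) * c4 - (a - b) * a1 - b * (1 - a) * c * a2 + a * (1 - b) * (1 - c) * a3 -
        (b * (1 - a) * (1 - c) - a * (1 - b) * c) * a4) n n n
  simp only [k2, k3, k4, k5] at this
  have h1 := mul_nonneg (sub_nonneg.2 ba) z0
  have h2 := mul_nonneg (sub_nonneg.2 ba) v0
  have h3 := mul_le_mul_of_nonneg_left uv (b0.le.trans ba)
  have h4 := mul_nonneg (mul_nonneg (sub_nonneg.2 ba) u0) (show 0 ≤ 1 - (1 - a) * c by nlinarith)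
  linarith

end Pool.Agent.H.MP_582e6d_pr
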