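import Pool.Agent.H.MP_582e6d_pr.A

set_option autoImplicit false

namespace Pool.Agent.H.MP_582e6d_pr

def win (a b c : ℝ) : ℕ → ℕ → ℕ → Fin 3 → ℝ
  | 0, _, _, _ => 1
  | _ + 1, 0, _, _ => 0
  | _ + 1, _ + 1, 0, _ => 0
  | i + 1, j + 1, k + 1, 0 => c * win a b c (i + 1) j (k + 1) 2 + (1 - c) * win a b c (i + 1) (j + 1) k 1
  | i + 1, j + 1, k + 1, 1 => b * win a b c i (j + 1) (k + 1) 2 + (1 - b) * win a b c (i + 1) (j + 1) k 0
  | i + 1, j + 1, k + 1, 2 => a * win a b c i (j + 1) (k + 1) 1 + (1 - a) * win a b c (i + 1) j (k + 1) 0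

variable {a b c : ℝ} (a0 : 0 ≤ a) (a1 : a ≤ 1) (b0 : 0 ≤ b) (b1 : b ≤ 1) (c0 : 0 ≤ c) (c1 : c ≤ 1)

include a0 a1 b0 b1 c0 c1 in
lemma mono (i j k : ℕ) (o : Fin 3) : 0 ≤ win a b c i j k o ∧ win a b c i j k o ≤ win a b c i (j + 1) k o ∧
    win a b c i j k o ≤ win a b c i j (k + 1) o := by
  have a2 := sub_nonneg.2 a1
  have b2 := sub_nonneg.2 b1
  have c2 := sub_nonneg.2 c1
  have nn : ∀ i j k o, 0 ≤ win a b c i j k o := fun i j k o => by
    fun_induction win a b c i j k o <;> positivity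
  refine ⟨nn _ _ _ _, ?_, ?_⟩
  · fun_induction win a b c i j k o with
    | case1 => simp [win]
    | case2 => exact nn _ _ _ _
    | case3 => exact nn _ _ _ _
    | case4 i j k h1 h2 => rw [win]; gcongr
    | case5 i j k h1 h2 => rw [win]; gcongr
    | case6 i j k h1 h2 => rw [win]; gcongr
  · fun_induction win a b c i j k o with
    | case1 => simp [win]
    | case2 => exact nn _ _ _ _
    | case3 => exact nn _ _ _ _
    | case4 i j k h1 h2 => rw [win]; gcongr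
    | case5 i j k h1 h2 => rw [win]; gcongr
    | case6 i j k h1 h2 => rw [win]; gcongr

noncomputable def W (a b c : ℝ) (o : Fin 3) (i p q : ℤ) : ℝ :=
  if i < 0 ∨ p < 0 ∨ q < 0 then 0 else win a b c (i.toNat + 1) (p.toNat + 1) (q.toNat + 1) o

lemma W0 (o : Fin 3) (i p q : ℤ) (h : i < 0 ∨ p < 0 ∨ q < 0) : W a b c o i p q = 0 := if_pos h

lemma Wn (o : Fin 3) (i p q : ℕ) : W a b c o i p q = win a b c (i + 1) (p + 1) (q + 1) o := if_neg (by omega)

lemma W1 (o : Fin 3) (i p q : ℕ) : e i p q + W a b c o (i - 1) p q = win a b c i (p + 1) (q + 1) o := by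
  cases i with
  | zero => rw [W0 _ _ _ _ (by omega)]; simp [e, win]
  | succ i => rw [e, if_neg (by omega), ← Wn]; simp

lemma W2 (o : Fin 3) (i p q : ℕ) : W a b c o i (p - 1) q = win a b c (i + 1) p (q + 1) o := by
  cases p with
  | zero => rw [W0 _ _ _ _ (by omega), win]
  | succ i => rw [← Wn]; simp

lemma W3 (o : Fin 3) (i p q : ℕ) : W a b c o i p (q - 1) = win a b c (i + 1) (p + 1) q o := by
  cases q with
  | zero => rw [W0 _ _ _ _ (by omega), win]
  | succ i => rw [← Wn]; simp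

lemma cs (i p q : ℤ) : (i < 0 ∨ p < 0 ∨ q < 0) ∨ ∃ x y z : ℕ, i = x ∧ p = y ∧ q = z :=
  (em _).imp_right fun h => ⟨i.toNat, p.toNat, q.toNat, by omega, by omega, by omega⟩

theorem fin (b0 : 0 < b) (ba : b ≤ a) (a1 : a < 1) (c0 : 0 < c) (c1 : c ≤ 1 / 2) (n : ℕ) :
    win a b c n n n 1 ≤ win a b c n n n 2 ∧ win a b c n n n 0 ≤ win a b c n n n 2 := by
  cases n with
  | zero => simp [win]
  | succ n =>
    have h := main b0 ba a1 c0 c1 (S := W a b c 2) (M := W a b c 1) (F := W a b c 0) (W0 2) (W0 1)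
      (fun i p q => ?_) (fun i p q => ?_) (fun i p q => ?_) n
    · rw [Wn, Wn] at h
      refine ⟨h, ?_⟩
      have m := mono (b0.le.trans ba) a1.le b0.le (ba.trans a1.le) c0.le (by linarith)
      rw [win]
      nlinarith [mul_le_mul_of_nonneg_left (m (n + 1) n (n + 1) 2).2.1 c0.le,
        mul_le_mul_of_nonneg_left ((m (n + 1) (n + 1) n 1).2.2.trans h) (by linarith : 0 ≤ 1 - c)]
    all_goals
      rcases cs i p q with h | ⟨x, y, z, rfl, rfl, rfl⟩
      · rw [W0 _ _ _ _ h, W0 _ _ _ _ (by omega), W0 _ _ _ _ (by omega)]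
        simp only [e, if_neg (show ¬(i = 0 ∧ 0 ≤ p ∧ 0 ≤ q) by omega), mul_zero, add_zero]
      · simp only [Wn, W1, W2, W3, win]

end Pool.Agent.H.MP_582e6d_pr
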