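import Pool.Agent.H.MP_582e6d_pr.B

set_option autoImplicit false

namespace Pool.Agent.H.MP_582e6d_pr

def step (a b c : ℝ) (w : ℕ → ℕ → ℕ → Fin 3 → ℝ) (i j k : ℕ) (o : Fin 3) : ℝ :=
  if i = 0 then 1 else if j = 0 ∨ k = 0 then 0 else
    if o = 0 then c * w i (j - 1) k 2 + (1 - c) * w i j (k - 1) 1 else
    if o = 1 then b * w (i - 1) j k 2 + (1 - b) * w i j (k - 1) 0 else
      a * w (i - 1) j k 1 + (1 - a) * w i (j - 1) k 0

def P (a b c : ℝ) (N : ℕ) (o : Fin 3) : ℝ := (step a b c)^[3 * N + 1] 0 N N N o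

lemma it (a b c : ℝ) (n i j k : ℕ) (o : Fin 3) (h : i + j + k < n) :
    (step a b c)^[n] 0 i j k o = win a b c i j k o := by
  induction n generalizing i j k o with
  | zero => omega
  | succ n ih =>
    rw [Function.iterate_succ_apply', step]
    cases i with
    | zero => simp [win]
    | succ i =>
      cases j with
      | zero => simp [win]
      | succ j =>
        cases k with
        | zero => simp [win]
        | succ k =>
          rw [if_neg (by omega), if_neg (by omega)]
          simp only [Nat.add_sub_cancel]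
          rw [ih _ _ _ _ (by omega), ih _ _ _ _ (by omega), ih _ _ _ _ (by omega), ih _ _ _ _ (by omega),
            ih _ _ _ _ (by omega), ih _ _ _ _ (by omega)]
          fin_cases o <;> simp [win]

theorem fin' {a b c : ℝ} (b0 : 0 < b) (ba : b ≤ a) (a1 : a < 1) (c0 : 0 < c) (c1 : c ≤ 1 / 2) (n : ℕ) :
    P a b c n 1 ≤ P a b c n 2 ∧ P a b c n 0 ≤ P a b c n 2 := by
  simp only [P, it _ _ _ _ _ _ _ _ (show n + n + n < 3 * n + 1 by omega)]
  exact fin b0 ba a1 c0 c1 n

end Pool.Agent.H.MP_582e6d_pr
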